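import Pool.Agent.N295.SR.Stm

/-!
# Extension of a solution from a half cylinder with a constant potential
-/

set_option autoImplicit false
set_option linter.unusedSectionVars false

namespace Pool.Agent.N438.SR

open MeasureTheory Complex
open Pool.Agent.Y291.DB (Sol um um_d1 um_d2 inversion)

/-- Gluing of differentiable functions. -/
theorem glue {f g f' g' : ℝ → ℂ} {τ : ℝ} (hf : ∀ x, HasDerivAt f (f' x) x)
    (hg : ∀ x, HasDerivAt g (g' x) x) (h0 : f τ = g τ) (h1 : f' τ = g' τ) (x : ℝ) :
    HasDerivAt (fun x => if τ ≤ x then f x else g x) (if τ ≤ x then f' x else g' x) x := by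
  rcases lt_trichotomy x τ with h | h | h
  · rw [if_neg (not_le.2 h)]
    refine (hg x).congr_of_eventuallyEq ?_
    filter_upwards [Iio_mem_nhds h] with y hy
    rw [if_neg (not_le.2 hy)]
  · subst h
    rw [if_pos le_rfl]
    have a1 : HasDerivWithinAt (fun y => if x ≤ y then f y else g y) (f' x) (Set.Ici x) x := by
      refine (hf x).hasDerivWithinAt.congr (fun y hy => ?_) ?_
      · exact if_pos hy
      · exact if_pos le_rfl
    have a2 : HasDerivWithinAt (fun y => if x ≤ y then f y else g y) (f' x) (Set.Iic x) x := by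
      rw [h1]
      refine (hg x).hasDerivWithinAt.congr (fun y hy => ?_) ?_
      · by_cases h : x ≤ y
        · have h2 : y = x := le_antisymm hy h
          subst h2
          rw [if_pos le_rfl, h0]
        · rw [if_neg h]
      · rw [if_pos le_rfl, h0]
    have a3 := a2.union a1
    rw [Set.Iic_union_Ici] at a3
    exact a3.hasDerivAt Filter.univ_mem
  · rw [if_pos h.le]
    refine (hf x).congr_of_eventuallyEq ?_
    filter_upwards [Ioi_mem_nhds h] with y hy
    rw [if_pos (le_of_lt hy)]

/-- Solutions of the equation with constant coefficients. -/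
theorem exists_sol (μ : ℝ) (A B : ℂ) (τ : ℝ) : ∃ v v' : ℝ → ℂ, (∀ x, HasDerivAt v (v' x) x) ∧
    (∀ x, HasDerivAt v' ((μ : ℂ) * v x) x) ∧ v τ = A ∧ v' τ = B := by
  have hlin : ∀ x : ℝ, HasDerivAt (fun x : ℝ => ((x : ℂ) - τ)) 1 x := fun x =>
    (Complex.ofRealCLM.hasDerivAt (x := x)).sub_const _
  by_cases hμ : μ = 0
  · subst hμ
    refine ⟨fun x => A + B * ((x : ℂ) - τ), fun _ => B, fun x => ?_, fun x => ?_, ?_, rfl⟩
    · have h1 := ((hlin x).const_mul B).const_add A
      rwa [mul_one] at h1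
    · rw [ofReal_zero, zero_mul]
      exact hasDerivAt_const x B
    · simp
  · obtain ⟨z, hz⟩ : ∃ z : ℂ, z ^ 2 = (μ : ℂ) := IsAlgClosed.exists_pow_nat_eq _ (by norm_num)
    have hz0 : z ≠ 0 := by
      rintro rfl
      apply hμ
      have h1 : (μ : ℂ) = 0 := by
        rw [← hz]
        ring
      exact_mod_cast h1
    have hE : ∀ (c : ℂ) (x : ℝ), HasDerivAt (fun x : ℝ => Complex.exp (c * ((x : ℂ) - τ)))
        (c * Complex.exp (c * ((x : ℂ) - τ))) x := by
      intro c x
      have h1 := ((hlin x).const_mul c).cexp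
      rw [mul_one] at h1
      rwa [mul_comm] at h1
    refine ⟨fun x => (A + B / z) / 2 * Complex.exp (z * ((x : ℂ) - τ)) +
      (A - B / z) / 2 * Complex.exp (-z * ((x : ℂ) - τ)),
      fun x => (A + B / z) / 2 * (z * Complex.exp (z * ((x : ℂ) - τ))) +
      (A - B / z) / 2 * (-z * Complex.exp (-z * ((x : ℂ) - τ))),
      fun x => ((hE z x).const_mul _).add ((hE (-z) x).const_mul _), fun x => ?_, ?_, ?_⟩
    · have h1 := (((hE z x).const_mul z).const_mul ((A + B / z) / 2)).add
        (((hE (-z) x).const_mul (-z)).const_mul ((A - B / z) / 2))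
      refine h1.congr_deriv ?_
      rw [← hz]
      ring
    · simp
      ring
    · simp
      field_simp
      ring

/-- The exponentials. -/
noncomputable def ex (k : ℤ) (y : ℝ) : ℂ := Complex.exp (k * y * I)

theorem ex_deriv (k : ℤ) (y : ℝ) : HasDerivAt (ex k) (ex k y * (k * I)) y := by
  unfold ex
  have h1 : HasDerivAt (fun y : ℝ => (k : ℂ) * (y : ℂ) * I) ((k : ℂ) * 1 * I) y :=
    ((Complex.ofRealCLM.hasDerivAt (x := y)).const_mul (k : ℂ)).mul_const I
  have h2 := h1.cexp
  rwa [mul_one] at h2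

theorem ex_cont (k : ℤ) : Continuous (ex k) := by
  unfold ex
  fun_prop

/-- Real parts of trigonometric polynomials. -/
noncomputable def tp (K : ℕ) (c : ℤ → ℝ → ℂ) (x y : ℝ) : ℝ :=
  (∑ k ∈ Finset.Icc (-(K : ℤ)) K, c k x * ex k y).re

theorem tp_cont (K : ℕ) {c : ℤ → ℝ → ℂ} (hc : ∀ k, Continuous (c k)) :
    Continuous (Function.uncurry (tp K c)) := by
  unfold tp
  refine Complex.continuous_re.comp ?_
  refine continuous_finsetSum _ fun k _ => ?_
  exact ((hc k).comp continuous_fst).mul ((ex_cont k).comp continuous_snd)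

theorem re_deriv {f : ℝ → ℂ} {f' : ℂ} {x : ℝ} (h : HasDerivAt f f' x) :
    HasDerivAt (fun t => (f t).re) f'.re x :=
  Complex.reCLM.hasFDerivAt.comp_hasDerivAt x h

theorem tp_dx (K : ℕ) {c c' : ℤ → ℝ → ℂ} (hc : ∀ k x, HasDerivAt (c k) (c' k x) x) (x y : ℝ) :
    HasDerivAt (fun t => tp K c t y) (tp K c' x y) x := by
  unfold tp
  exact re_deriv (HasDerivAt.fun_sum fun k _ => (hc k x).mul_const _)

theorem tp_dy (K : ℕ) (c : ℤ → ℝ → ℂ) (x y : ℝ) :
    HasDerivAt (fun t => tp K c x t) (tp K (fun k x => c k x * (k * I)) x y) y := by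
  unfold tp
  have h1 : ∀ k : ℤ, HasDerivAt (fun t => c k x * ex k t) (c k x * (k * I) * ex k y) y := by
    intro k
    have h2 := (ex_deriv k y).const_mul (c k x)
    exact h2.congr_deriv (by ring)
  exact re_deriv (HasDerivAt.fun_sum fun k _ => h1 k)

/-- Extension of a solution from a half cylinder with a constant potential. -/
theorem EXT : Pool.Agent.N295.SR.S_EXT := by
  intro q K φ φx φxx φy φyy h hper hK τ
  choose v v' hv hv' h0 h1 using fun k : ℤ =>
    exists_sol ((k : ℝ) ^ 2 - q τ) (um φ k τ) (um φx k τ) τ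
  obtain ⟨U, hUd⟩ : ∃ U : ℤ → ℝ → ℂ, U = fun k x => if τ ≤ x then um φ k x else v k x := ⟨_, rfl⟩
  obtain ⟨U', hUd'⟩ : ∃ U' : ℤ → ℝ → ℂ, U' = fun k x => if τ ≤ x then um φx k x else v' k x :=
    ⟨_, rfl⟩
  have hU : ∀ k x, HasDerivAt (U k) (U' k x) x := by
    intro k x
    rw [hUd, hUd']
    exact glue (um_d1 h hper k) (hv k) (h0 k).symm (h1 k).symm x
  have hU' : ∀ k x, HasDerivAt (U' k) ((((k : ℝ) ^ 2 - q (max x τ) : ℝ) : ℂ) * U k x) x := by
    intro k x
    rw [hUd, hUd']
    have h2 := glue (um_d2 h hper k) (hv' k) (h1 k).symm (by rw [h0]) x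
    refine h2.congr_deriv ?_
    by_cases hx : τ ≤ x
    · simp only [if_pos hx, max_eq_left hx]
    · simp only [if_neg hx, max_eq_right (not_le.1 hx).le]
  have hUc : ∀ k, Continuous (U k) := fun k =>
    continuous_iff_continuousAt.2 fun x => (hU k x).continuousAt
  have hUc' : ∀ k, Continuous (U' k) := fun k =>
    continuous_iff_continuousAt.2 fun x => (hU' k x).continuousAt
  have hqc : Continuous fun x => q (max x τ) := h.qc.comp (continuous_id.max continuous_const)
  refine ⟨tp K U, tp K U', tp K fun k x => (((k : ℝ) ^ 2 - q (max x τ) : ℝ) : ℂ) * U k x,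
    tp K fun k x => U k x * (k * I), tp K fun k x => U k x * (k * I) * (k * I), ?_, ?_⟩
  · refine ⟨hqc, tp_cont K hUc, tp_cont K hUc', tp_cont K fun k => ?_, tp_cont K fun k => ?_,
      tp_cont K fun k => ?_, tp_dx K hU, tp_dx K hU', tp_dy K U, tp_dy K _, fun x y => ?_⟩
    · exact (Complex.continuous_ofReal.comp (continuous_const.sub hqc)).mul (hUc k)
    · exact (hUc k).mul continuous_const
    · exact ((hUc k).mul continuous_const).mul continuous_const
    · unfold tp
      rw [← Complex.add_re, ← Finset.sum_add_distrib, ← Complex.re_ofReal_mul, ← Complex.neg_re,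
        Finset.mul_sum, ← Finset.sum_neg_distrib]
      congr 1
      refine Finset.sum_congr rfl fun k _ => ?_
      push_cast
      linear_combination ((k : ℂ) ^ 2 * U k x * ex k y) * Complex.I_mul_I
  · intro x y hx
    have h2 := inversion h hper x (hK x) y
    unfold tp
    have h3 : ∑ k ∈ Finset.Icc (-(K : ℤ)) K, U k x * ex k y = (φ x y : ℂ) := by
      rw [h2, hUd]
      refine Finset.sum_congr rfl fun k _ => ?_
      beta_reduce
      rw [if_pos hx]
      rfl
    rw [h3, Complex.ofReal_re]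

end Pool.Agent.N438.SR
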